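import Pool.Agent.W823.QT.Stm

/-! A Paley-Zygmund type bound. -/

set_option autoImplicit false

namespace Pool.Agent.W882.QTPZ

open MeasureTheory Pool.Agent.W823.QT
open scoped ENNReal NNReal

lemma point (z m : ℝ≥0∞) (hz : z ≠ ∞) (hm : m ≠ ∞) :
    32 * m * z ≤ z ^ 2 + 256 * m ^ 2 := by
  lift z to ℝ≥0 using hz
  lift m to ℝ≥0 using hm
  norm_cast
  rw [← NNReal.coe_le_coe]
  push_cast
  nlinarith [sq_nonneg ((z : ℝ) - 16 * m)]

lemma arith1 (m A B I p : ℝ≥0∞) (hm0 : m ≠ 0) (hmt : m ≠ ∞) (hA : A ≠ ∞) (hI : I ≠ ∞)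
    (hp : p ≠ ∞) (h1 : m ≤ A + B) (h2 : B ≤ 1 / 2 * m) (h3 : A ≤ m / 4 + I)
    (h4 : 32 * m * I ≤ 4 * m ^ 2 + 256 * m ^ 2 * p) : 1 / 64 ≤ p := by
  have hB : B ≠ ∞ := by
    refine (h2.trans_lt (ENNReal.mul_lt_top ?_ hmt.lt_top)).ne
    simp
  have e1 := ENNReal.toReal_mono (ENNReal.add_ne_top.2 ⟨hA, hB⟩) h1
  have e2 := ENNReal.toReal_mono (ENNReal.mul_ne_top (by simp) hmt) h2
  have hm4 : m / 4 ≠ ∞ := ENNReal.div_ne_top hmt (by norm_num)
  have e3 := ENNReal.toReal_mono (ENNReal.add_ne_top.2 ⟨hm4, hI⟩) h3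
  have hfin : 4 * m ^ 2 + 256 * m ^ 2 * p ≠ ∞ :=
    ENNReal.add_ne_top.2 ⟨ENNReal.mul_ne_top (by norm_num) (ENNReal.pow_ne_top hmt),
      ENNReal.mul_ne_top (ENNReal.mul_ne_top (by norm_num) (ENNReal.pow_ne_top hmt)) hp⟩
  have e4 := ENNReal.toReal_mono hfin h4
  rw [ENNReal.toReal_add hA hB] at e1
  rw [ENNReal.toReal_mul] at e2
  rw [ENNReal.toReal_add hm4 hI, ENNReal.toReal_div] at e3
  rw [ENNReal.toReal_mul, ENNReal.toReal_mul, ENNReal.toReal_add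
    (ENNReal.mul_ne_top (by norm_num) (ENNReal.pow_ne_top hmt))
    (ENNReal.mul_ne_top (ENNReal.mul_ne_top (by norm_num) (ENNReal.pow_ne_top hmt)) hp),
    ENNReal.toReal_mul, ENNReal.toReal_mul, ENNReal.toReal_mul, ENNReal.toReal_pow] at e4
  have hmpos : 0 < m.toReal := ENNReal.toReal_pos hm0 hmt
  have c2 : (1 / 2 : ℝ≥0∞).toReal = 1 / 2 := by simp
  have c4 : (4 : ℝ≥0∞).toReal = 4 := by simp
  have c32 : (32 : ℝ≥0∞).toReal = 32 := by simp
  have c256 : (256 : ℝ≥0∞).toReal = 256 := by simp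
  rw [c2] at e2
  rw [c4] at e3
  rw [c4, c32, c256] at e4
  have hI1 : m.toReal / 4 ≤ I.toReal := by linarith
  have h5 : 8 * m.toReal ^ 2 ≤ 4 * m.toReal ^ 2 + 256 * m.toReal ^ 2 * p.toReal := by
    nlinarith
  have h6 : (1 / 64 : ℝ) ≤ p.toReal := by
    have hm2 : 0 < m.toReal ^ 2 := by positivity
    have : 0 ≤ m.toReal ^ 2 * (256 * p.toReal - 4) := by nlinarith
    have := nonneg_of_mul_nonneg_right this hm2
    linarith
  rw [← ENNReal.ofReal_toReal hp]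
  have h7 : (1 / 64 : ℝ≥0∞) = ENNReal.ofReal (1 / 64) := by
    rw [ENNReal.ofReal_div_of_pos (by norm_num)]
    simp
  rw [h7]
  exact ENNReal.ofReal_le_ofReal h6

theorem main : PZ_T := by
  intro Ω _ P _ Z W W' hZ hW hZ1 hZW hWZ hpos h2 hW'
  set m := ∫⁻ ω, Z ω ∂P with hm
  have hm1 : m ≤ 1 := by
    calc m ≤ ∫⁻ _, 1 ∂P := lintegral_mono hZ1
      _ = 1 := by simp
  have hmt : m ≠ ∞ := (hm1.trans_lt ENNReal.one_lt_top).ne
  have hm0 : m ≠ 0 := hpos.ne'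
  have hZt : ∀ ω, Z ω ≠ ∞ := fun ω => ((hZ1 ω).trans_lt ENNReal.one_lt_top).ne
  have hsum : m ≤ ∫⁻ ω, W ω ∂P + ∫⁻ ω, W' ω ∂P := by
    rw [← lintegral_add_left' hW]
    exact lintegral_mono hZW
  obtain ⟨E1, hE1def⟩ : ∃ E : Set Ω, E = {ω | m / 4 ≤ W ω} := ⟨_, rfl⟩
  have hE1 : NullMeasurableSet E1 P := by
    rw [hE1def]
    exact nullMeasurableSet_le aemeasurable_const hW
  have hA : ∫⁻ ω, W ω ∂P ≠ ∞ := ((lintegral_mono hWZ).trans_lt hmt.lt_top).ne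
  have hI : ∫⁻ ω, E1.indicator Z ω ∂P ≠ ∞ := by
    refine ((lintegral_mono fun ω => ?_).trans_lt hmt.lt_top).ne
    exact Set.indicator_le_self _ _ _
  have h3 : ∫⁻ ω, W ω ∂P ≤ m / 4 + ∫⁻ ω, E1.indicator Z ω ∂P := by
    calc ∫⁻ ω, W ω ∂P ≤ ∫⁻ ω, (m / 4 + E1.indicator Z ω) ∂P := by
          refine lintegral_mono fun ω => ?_
          by_cases h : ω ∈ E1
          · rw [Set.indicator_of_mem h]
            exact (hWZ ω).trans le_add_self
          · rw [Set.indicator_of_notMem h, add_zero]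
            rw [hE1def, Set.mem_setOf_eq, not_le] at h
            exact h.le
      _ = m / 4 + ∫⁻ ω, E1.indicator Z ω ∂P := by
          rw [lintegral_add_left measurable_const]
          simp
  have h4 : 32 * m * ∫⁻ ω, E1.indicator Z ω ∂P ≤ 4 * m ^ 2 + 256 * m ^ 2 * P E1 := by
    calc 32 * m * ∫⁻ ω, E1.indicator Z ω ∂P = ∫⁻ ω, 32 * m * E1.indicator Z ω ∂P :=
          (lintegral_const_mul'' _ (hZ.indicator₀ hE1)).symm
      _ ≤ ∫⁻ ω, (Z ω ^ 2 + 256 * m ^ 2 * E1.indicator 1 ω) ∂P := by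
          refine lintegral_mono fun ω => ?_
          by_cases h : ω ∈ E1
          · rw [Set.indicator_of_mem h, Set.indicator_of_mem h, Pi.one_apply, mul_one]
            exact point _ _ (hZt ω) hmt
          · rw [Set.indicator_of_notMem h, Set.indicator_of_notMem h, mul_zero]
            exact bot_le
      _ = ∫⁻ ω, Z ω ^ 2 ∂P + 256 * m ^ 2 * P E1 := by
          rw [lintegral_add_left' (hZ.pow_const 2), lintegral_const_mul'',
            lintegral_indicator_one₀ hE1]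
          exact (aemeasurable_const (b := (1 : ℝ≥0∞))).indicator₀ hE1
      _ ≤ 4 * m ^ 2 + 256 * m ^ 2 * P E1 := by
          gcongr
  have hp1 : 1 / 64 ≤ P E1 :=
    arith1 m _ _ _ _ hm0 hmt hA hI (measure_ne_top P E1) hsum hW' h3 h4
  have hp2 : P {ω | 128 * m ≤ Z ω} ≤ 1 / 128 := by
    have h5 := mul_meas_ge_le_lintegral₀ hZ (128 * m)
    rw [← hm] at h5
    have h6 : 128 * P {ω | 128 * m ≤ Z ω} ≤ 1 := by
      rw [mul_comm (128 : ℝ≥0∞) m, mul_assoc] at h5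
      calc 128 * P {ω | 128 * m ≤ Z ω} = m⁻¹ * (m * (128 * P {ω | 128 * m ≤ Z ω})) := by
            rw [← mul_assoc, ENNReal.inv_mul_cancel hm0 hmt, one_mul]
        _ ≤ m⁻¹ * m := by
            gcongr
            rw [mul_comm (128 : ℝ≥0∞) m]
            exact h5
        _ = 1 := ENNReal.inv_mul_cancel hm0 hmt
    rw [ENNReal.le_div_iff_mul_le (by simp) (by simp), mul_comm]
    exact h6
  have hdiff : (1 / 128 : ℝ≥0∞) ≤ P (E1 \ {ω | 128 * m ≤ Z ω}) := by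
    calc (1 / 128 : ℝ≥0∞) ≤ 1 / 64 - 1 / 128 := by
          rw [show (1 / 64 : ℝ≥0∞) = ENNReal.ofReal (1 / 64) by
              rw [ENNReal.ofReal_div_of_pos (by norm_num)]; simp,
            show (1 / 128 : ℝ≥0∞) = ENNReal.ofReal (1 / 128) by
              rw [ENNReal.ofReal_div_of_pos (by norm_num)]; simp,
            ← ENNReal.ofReal_sub _ (by norm_num)]
          exact ENNReal.ofReal_le_ofReal (by norm_num)
      _ ≤ P E1 - P {ω | 128 * m ≤ Z ω} := tsub_le_tsub hp1 hp2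
      _ ≤ P (E1 \ {ω | 128 * m ≤ Z ω}) := le_measure_diff
  refine hdiff.trans (measure_mono ?_)
  rintro ω ⟨h1, h5⟩
  rw [hE1def, Set.mem_setOf_eq] at h1
  rw [Set.mem_setOf_eq, not_le] at h5
  rw [Set.mem_setOf_eq]
  have hW0 : W ω ≠ 0 := by
    intro h0
    rw [h0, nonpos_iff_eq_zero, ENNReal.div_eq_zero_iff] at h1
    rcases h1 with h1 | h1
    · exact hm0 h1
    · exact absurd h1 (by norm_num)
  have hZ0 : Z ω ≠ 0 := fun h0 => hW0 (nonpos_iff_eq_zero.1 (h0 ▸ hWZ ω))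
  rw [ENNReal.le_div_iff_mul_le (Or.inl hZ0) (Or.inl (hZt ω))]
  refine le_trans ?_ h1
  calc 1 / 512 * Z ω ≤ 1 / 512 * (128 * m) := by gcongr
    _ = m / 4 := by
      lift m to ℝ≥0 using hmt with m'
      rw [← ENNReal.toReal_eq_toReal_iff' (ENNReal.mul_ne_top (by simp) (ENNReal.mul_ne_top (by norm_num) ENNReal.coe_ne_top)) (ENNReal.div_ne_top ENNReal.coe_ne_top (by norm_num))]
      simp only [ENNReal.toReal_mul, ENNReal.toReal_div, ENNReal.toReal_one, ENNReal.toReal_ofNat]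
      ring

end Pool.Agent.W882.QTPZ
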