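import Pool.Agent.Helper578.JD.Exist
import Pool.Agent.Helper578.JD.Sanity

set_option autoImplicit false

/-!
Effective Baire category: a sequence of dense sets of conditions which is enumerable in `Z` is met
by a set computable in `Z`.
-/

namespace Pool.Agent.W882

open Encodable Pool.Agent.Helper578.JD Oracle RE Defs
open Nat.Partrec (Code)

section
variable {Z : Set ℕ} {α : Type} [Primcodable α]

theorem ok_re {f : α → Info} (hf : Computable f) : REIn Z fun a => Ok Z (f a) := by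
  unfold Ok
  refine REIn.and ?_ ?_
  · exact REIn.all_mem (S := fun (_ : α) x => x ∈ Z) (l := fun a => (f a).1)
      (REIn.mem Computable.snd) (by fun_prop)
  · exact REIn.all_mem (S := fun (_ : α) x => x ∉ Z) (l := fun a => (f a).2)
      (REIn.not_mem Computable.snd) (by fun_prop)

theorem ex_mem_re {l : α → List ℕ} (hl : Computable l) {S : α → ℕ → Prop}
    (hS : REIn Z fun x : α × ℕ => S x.1 x.2) : REIn Z fun a => ∃ x ∈ l a, S a x := by
  have h1 : REIn Z fun a => ∃ x : ℕ, x ∈ l a ∧ S a x := by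
    refine REIn.ex (S := fun (a : α) (x : ℕ) => x ∈ l a ∧ S a x) ?_
    exact REIn.and (REIn.of_re (RE.mem_list (f := fun x : α × ℕ => x.2)
      (l := fun x : α × ℕ => l x.1) (by fun_prop) (by fun_prop))) hS
  exact h1

theorem not_ok_re {f : α → Info} (hf : Computable f) : REIn Z fun a => ¬ Ok Z (f a) := by
  have h : REIn Z fun a => (∃ x ∈ (f a).1, x ∉ Z) ∨ ∃ x ∈ (f a).2, x ∈ Z := by
    refine REIn.or ?_ ?_
    · exact ex_mem_re (l := fun a => (f a).1) (by fun_prop) (REIn.not_mem Computable.snd)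
    · exact ex_mem_re (l := fun a => (f a).2) (by fun_prop) (REIn.mem Computable.snd)
  refine h.of_eq fun a => ?_
  unfold Ok
  constructor
  · rintro (⟨x, h1, h2⟩ | ⟨x, h1, h2⟩) h3
    · exact h2 (h3.1 x h1)
    · exact h3.2 x h1 h2
  · intro h1
    by_contra h2
    push Not at h2
    exact h1 ⟨h2.1, h2.2⟩

/-- a good candidate -/
def Gd2 (Z : Set ℕ) (t : ((ℕ × Info) × Info) → ℕ → Bool) (s : ℕ) (p : Info)
    (x : (Info × Info) × ℕ) : Prop :=
  t ((s, x.1.1), x.1.2) x.2 = true ∧ Ok Z x.1.2 ∧ Cons (p.1 ++ x.1.1.1, p.2 ++ x.1.1.2)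

theorem Gd2_re {t : ((ℕ × Info) × Info) → ℕ → Bool} (ht : Computable₂ t) {s : α → ℕ}
    {p : α → Info} {x : α → (Info × Info) × ℕ} (hs : Computable s) (hp : Computable p)
    (hx : Computable x) : REIn Z fun a => Gd2 Z t (s a) (p a) (x a) := by
  unfold Gd2
  refine REIn.and (REIn.of_re (RE.of_bool ?_)) (REIn.and (ok_re (by fun_prop))
    (REIn.of_re (cons_re (by fun_prop))))
  exact ht.comp (by fun_prop) (by fun_prop)

theorem Gd2_not_re {t : ((ℕ × Info) × Info) → ℕ → Bool} (ht : Computable₂ t) {s : α → ℕ}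
    {p : α → Info} {x : α → (Info × Info) × ℕ} (hs : Computable s) (hp : Computable p)
    (hx : Computable x) : REIn Z fun a => ¬ Gd2 Z t (s a) (p a) (x a) := by
  have h : REIn Z fun a => (!(t ((s a, (x a).1.1), (x a).1.2) (x a).2)) = true ∨
      ¬ Ok Z (x a).1.2 ∨ ¬ Cons ((p a).1 ++ (x a).1.1.1, (p a).2 ++ (x a).1.1.2) := by
    refine REIn.or (REIn.of_re (RE.of_bool ?_)) (REIn.or (not_ok_re (by fun_prop))
      (REIn.of_re (not_cons_re (f := fun a => ((p a).1 ++ (x a).1.1.1, (p a).2 ++ (x a).1.1.2))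
        (by fun_prop))))
    exact cnot (ht.comp (by fun_prop) (by fun_prop))
  refine h.of_eq fun a => ?_
  unfold Gd2
  rw [Bool.not_eq_true']
  cases t ((s a, (x a).1.1), (x a).1.2) (x a).2 <;> simp <;> tauto

/-- the step relation -/
def St2 (Z : Set ℕ) (t : ((ℕ × Info) × Info) → ℕ → Bool) (s : ℕ) (p p' : Info) : Prop :=
  ∃ k : ℕ, ∃ x : (Info × Info) × ℕ,
    ((decode k : Option ((Info × Info) × ℕ)) = some x ∧ Gd2 Z t s p x) ∧
    (∀ k' < k, (decode k' : Option ((Info × Info) × ℕ)) = none ∨ ∃ x' : (Info × Info) × ℕ,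
      (decode k' : Option ((Info × Info) × ℕ)) = some x' ∧ ¬ Gd2 Z t s p x') ∧
      Dc s (p.1 ++ x.1.1.1, p.2 ++ x.1.1.2) p'

theorem St2_re {t : ((ℕ × Info) × Info) → ℕ → Bool} (ht : Computable₂ t) :
    REIn Z fun x : ℕ × (Info × Info) => St2 Z t x.1 x.2.1 x.2.2 := by
  unfold St2
  refine REIn.ex (S := fun (y : ℕ × (Info × Info)) (k : ℕ) => ∃ x : (Info × Info) × ℕ,
    ((decode k : Option ((Info × Info) × ℕ)) = some x ∧ Gd2 Z t y.1 y.2.1 x) ∧
    (∀ k' < k, (decode k' : Option ((Info × Info) × ℕ)) = none ∨ ∃ x' : (Info × Info) × ℕ,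
      (decode k' : Option ((Info × Info) × ℕ)) = some x' ∧ ¬ Gd2 Z t y.1 y.2.1 x') ∧
      Dc y.1 (y.2.1.1 ++ x.1.1.1, y.2.1.2 ++ x.1.1.2) y.2.2) ?_
  refine REIn.ex (S := fun (y : (ℕ × (Info × Info)) × ℕ) (x : (Info × Info) × ℕ) =>
    ((decode y.2 : Option ((Info × Info) × ℕ)) = some x ∧ Gd2 Z t y.1.1 y.1.2.1 x) ∧
    (∀ k' < y.2, (decode k' : Option ((Info × Info) × ℕ)) = none ∨ ∃ x' : (Info × Info) × ℕ,
      (decode k' : Option ((Info × Info) × ℕ)) = some x' ∧ ¬ Gd2 Z t y.1.1 y.1.2.1 x') ∧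
      Dc y.1.1 (y.1.2.1.1 ++ x.1.1.1, y.1.2.1.2 ++ x.1.1.2) y.1.2.2) ?_
  refine REIn.and (REIn.and (REIn.of_re (RE.eq (by fun_prop) (by fun_prop)))
    (Gd2_re ht (by fun_prop) (by fun_prop) (by fun_prop))) (REIn.and ?_
    (REIn.of_re (Dc_re (by fun_prop) (by fun_prop) (by fun_prop))))
  refine REIn.all_lt (S := fun (y : ((ℕ × (Info × Info)) × ℕ) × ((Info × Info) × ℕ)) (k' : ℕ) =>
    (decode k' : Option ((Info × Info) × ℕ)) = none ∨ ∃ x' : (Info × Info) × ℕ,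
      (decode k' : Option ((Info × Info) × ℕ)) = some x' ∧ ¬ Gd2 Z t y.1.1.1 y.1.1.2.1 x') ?_
      (by fun_prop)
  refine REIn.or (REIn.of_re (RE.eq (by fun_prop) (by fun_prop))) ?_
  refine REIn.ex (S := fun (y : (((ℕ × (Info × Info)) × ℕ) × ((Info × Info) × ℕ)) × ℕ)
      (x' : (Info × Info) × ℕ) =>
      (decode y.2 : Option ((Info × Info) × ℕ)) = some x' ∧
        ¬ Gd2 Z t y.1.1.1.1 y.1.1.1.2.1 x') ?_
  exact REIn.and (REIn.of_re (RE.eq (by fun_prop) (by fun_prop)))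
    (Gd2_not_re ht (by fun_prop) (by fun_prop) (by fun_prop))

theorem St2_uniq {t : ((ℕ × Info) × Info) → ℕ → Bool}
    {s : ℕ} {p p' p'' : Info} (h1 : St2 Z t s p p') (h2 : St2 Z t s p p'') : p' = p'' := by
  have aux : ∀ {k q k' q'}, ((decode k : Option ((Info × Info) × ℕ)) = some q ∧ Gd2 Z t s p q) →
      (∀ k₀ < k', (decode k₀ : Option ((Info × Info) × ℕ)) = none ∨ ∃ q' : (Info × Info) × ℕ,
        (decode k₀ : Option ((Info × Info) × ℕ)) = some q' ∧ ¬ Gd2 Z t s p q') →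
      ((decode k' : Option ((Info × Info) × ℕ)) = some q' ∧ Gd2 Z t s p q') → k' ≤ k := by
    intro k q k' q' hk hmin _
    by_contra hlt
    push Not at hlt
    rcases hmin k hlt with h3 | ⟨q₀, h3, h4⟩
    · rw [hk.1] at h3; simp at h3
    · rw [hk.1] at h3
      cases h3
      exact h4 hk.2
  obtain ⟨k, q, hkq, hmin, hD⟩ := h1
  obtain ⟨k', q', hkq', hmin', hD'⟩ := h2
  have e1 : k = k' := le_antisymm (aux hkq' hmin hkq) (aux hkq hmin' hkq')
  subst e1
  have e2 : q = q' := by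
    have := hkq.1.symm.trans hkq'.1
    exact Option.some.inj this
  subst e2
  exact Dc_uniq hD hD'

theorem baire {V : ℕ → Info → Prop} (hV : REIn Z fun x : ℕ × Info => V x.1 x.2)
    (hd : ∀ s p, Cons p → ∃ q, V s q ∧ Cons (app p q)) :
    ∃ X : Set ℕ, Red X Z ∧ ∀ s, ∃ q, Ok X q ∧ V s q := by
  obtain ⟨R, hR, hRV⟩ := hV
  obtain ⟨t, ht, hRt⟩ := RE.re_iff.1 hR
  have hex : ∀ s p, Cons p → ∃ p', St2 Z t s p p' := by
    classical
    intro s p hp
    obtain ⟨q, hq, hc⟩ := hd s p hp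
    obtain ⟨c, hc1, hc2⟩ := (hRV (s, q)).1 hq
    obtain ⟨n, hn⟩ := (hRt ((s, q), c)).1 hc1
    have hG : Gd2 Z t s p ((q, c), n) := ⟨hn, hc2, hc⟩
    have hex : ∃ k : ℕ, ∃ x : (Info × Info) × ℕ,
        (decode k : Option ((Info × Info) × ℕ)) = some x ∧ Gd2 Z t s p x :=
      ⟨encode ((q, c), n), ((q, c), n), encodek _, hG⟩
    obtain ⟨x, hx⟩ := Nat.find_spec hex
    obtain ⟨p', hp'⟩ := Dc_ex s (p.1 ++ x.1.1.1, p.2 ++ x.1.1.2)
    refine ⟨p', Nat.find hex, x, hx, ?_, hp'⟩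
    intro k' hk'
    have hmin := Nat.find_min hex hk'
    rcases hd : (decode k' : Option ((Info × Info) × ℕ)) with _ | x'
    · exact Or.inl rfl
    · exact Or.inr ⟨x', rfl, fun hG => hmin ⟨x', hd, hG⟩⟩
  have hcn : ∀ s p p', St2 Z t s p p' → Cons p' := by
    rintro s p p' ⟨k, x, hx, _, hD⟩
    exact (Dc_spec hD hx.2.2.2).1
  choose nx hnx using hex
  let P' : ℕ → {p : Info // Cons p} := fun s =>
    Nat.rec ⟨([], []), fun x hx => absurd hx List.not_mem_nil⟩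
      (fun s p => ⟨nx s p.1 p.2, hcn _ _ _ (hnx s p.1 p.2)⟩) s
  let P : ℕ → Info := fun s => (P' s).1
  have hP : ∀ s, St2 Z t s (P s) (P (s + 1)) := fun s => hnx s (P' s).1 (P' s).2
  have hgr : REIn Z fun x : ℕ × Info => P x.1 = x.2 :=
    graph_re (St2_re ht) hP fun s p p' p'' h1 h2 => St2_uniq h1 h2
  have hcons : ∀ s, Cons (P s) := fun s => (P' s).2
  have hstep : ∀ s, (∀ x ∈ (P s).1, x ∈ (P (s + 1)).1) ∧ (∀ x ∈ (P s).2, x ∈ (P (s + 1)).2) ∧
      (s ∈ (P (s + 1)).1 ∨ s ∈ (P (s + 1)).2) := by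
    intro s
    obtain ⟨k, q, hkq, _, hD⟩ := hP s
    obtain ⟨_, h1, h2, h3⟩ := Dc_spec hD hkq.2.2.2
    exact ⟨fun x hx => h1 x (List.mem_append_left _ hx),
        fun x hx => h2 x (List.mem_append_left _ hx), h3⟩
  have hmono : ∀ s t, s ≤ t → (∀ x ∈ (P s).1, x ∈ (P t).1) ∧ (∀ x ∈ (P s).2, x ∈ (P t).2) := by
    intro s t hst
    induction t, hst using Nat.le_induction with
    | base => exact ⟨fun x hx => hx, fun x hx => hx⟩
    | succ t _ ih =>
      exact ⟨fun x hx => (hstep t).1 x (ih.1 x hx), fun x hx => (hstep t).2.1 x (ih.2 x hx)⟩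
  let X : Set ℕ := {n | n ∈ (P (n + 1)).1}
  have hX : ∀ n, n ∈ X ↔ n ∈ (P (n + 1)).1 := fun n => Iff.rfl
  have hok : ∀ s, Ok X (P s) := by
    intro s
    constructor
    · intro n hn
      rw [hX]
      rcases (hstep n).2.2 with h1 | h1
      · exact h1
      · exfalso
        exact hcons (max s (n + 1)) n ((hmono s _ (le_max_left _ _)).1 n hn)
          ((hmono (n + 1) _ (le_max_right _ _)).2 n h1)
    · intro n hn h1
      rw [hX] at h1
      exact hcons (max s (n + 1)) n ((hmono (n + 1) _ (le_max_right _ _)).1 n h1)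
          ((hmono s _ (le_max_left _ _)).2 n hn)
  refine ⟨X, ?_, ?_⟩
  · rw [Red_iff]
    constructor
    · have h1 : REIn Z fun n : ℕ => ∃ x : Info, P (n + 1) = x ∧ n ∈ x.1 := by
        refine REIn.ex (S := fun (n : ℕ) (x : Info) => P (n + 1) = x ∧ n ∈ x.1) ?_
        refine REIn.and (hgr.comp (f := fun y : ℕ × Info => (y.1 + 1, y.2)) (by fun_prop))
          (REIn.of_re (RE.mem_list (by fun_prop) (by fun_prop)))
      refine h1.of_eq fun n => ?_
      rw [hX]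
      simp
    · have h1 : REIn Z fun n : ℕ => ∃ x : Info, P (n + 1) = x ∧ n ∉ x.1 := by
        refine REIn.ex (S := fun (n : ℕ) (x : Info) => P (n + 1) = x ∧ n ∉ x.1) ?_
        refine REIn.and (hgr.comp (f := fun y : ℕ × Info => (y.1 + 1, y.2)) (by fun_prop))
          (REIn.of_re (RE.not_mem_list (by fun_prop) (by fun_prop)))
      refine h1.of_eq fun n => ?_
      rw [hX]
      simp
  · intro s
    obtain ⟨k, x, hx, _, hD⟩ := hP s
    obtain ⟨_, h1, h2, _⟩ := Dc_spec hD hx.2.2.2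
    refine ⟨x.1.1, ⟨fun y hy => ?_, fun y hy => ?_⟩, ?_⟩
    · exact (hok (s + 1)).1 y (h1 y (List.mem_append_right _ hy))
    · exact (hok (s + 1)).2 y (h2 y (List.mem_append_right _ hy))
    · exact (hRV (s, x.1.1)).2 ⟨x.1.2, (hRt ((s, x.1.1), x.1.2)).2 ⟨x.2, hx.2.1⟩, hx.2.2.1⟩

end

end Pool.Agent.W882
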