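import Pool.Agent.W882.Baire

set_option autoImplicit false

/-!
If `Y 0, Y 1, ...` is a sequence of sets which is uniformly computable in `H`, and `H` computes the
halting problem, then some set computable in `H` is not Turing equivalent to any `Y e`.
-/

namespace Pool.Agent.W882

open Encodable Pool.Agent.Helper578.JD Oracle RE Defs
open Nat.Partrec (Code)

/-- inclusion of information -/
def Sub (c q : Info) : Prop := (∀ x ∈ c.1, x ∈ q.1) ∧ ∀ x ∈ c.2, x ∈ q.2

/-- `q` forces `y` into the set given by the reduction with index `i` -/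
def Frc (i : ℕ) (q : Info) (y : ℕ) : Prop := ∃ c : Info, Sub c q ∧ W i (encode (y, c))

/-- `q` forces the information `d` -/
def Ans (i i' : ℕ) (q d : Info) : Prop := (∀ y ∈ d.1, Frc i q y) ∧ ∀ y ∈ d.2, Frc i' q y

/-- some consistent extension of `q` forces information which gives `n` via `j` -/
def Ext (j i i' n : ℕ) (q : Info) : Prop :=
  ∃ q' : Info, Cons (q.1 ++ q'.1, q.2 ++ q'.2) ∧ ∃ d : Info, W j (encode (n, d)) ∧
    Ans i i' (q.1 ++ q'.1, q.2 ++ q'.2) d

theorem sub_re {α : Type} [Primcodable α] {f g : α → Info} (hf : Computable f)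
    (hg : Computable g) : REPred fun a => Sub (f a) (g a) := by
  unfold Sub
  refine RE.and ?_ ?_
  · exact RE.all_mem (p := fun a x => x ∈ (g a).1) (l := fun a => (f a).1)
      (RE.mem_list (by fun_prop) (by fun_prop)) (by fun_prop)
  · exact RE.all_mem (p := fun a x => x ∈ (g a).2) (l := fun a => (f a).2)
      (RE.mem_list (by fun_prop) (by fun_prop)) (by fun_prop)

theorem frc_re {α : Type} [Primcodable α] {i y : α → ℕ} {q : α → Info} (hi : Computable i)
    (hy : Computable y) (hq : Computable q) : REPred fun a => Frc (i a) (q a) (y a) := by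
  unfold Frc
  refine RE.ex (p := fun a c => Sub c (q a) ∧ W (i a) (encode (y a, c))) ?_
  refine RE.and (sub_re (by fun_prop) (by fun_prop)) ?_
  exact RE.comp W_re (f := fun x : α × Info => (i x.1, encode (y x.1, x.2))) (by fun_prop)

theorem ans_re {α : Type} [Primcodable α] {i i' : α → ℕ} {q d : α → Info} (hi : Computable i)
    (hi' : Computable i') (hq : Computable q) (hd : Computable d) :
    REPred fun a => Ans (i a) (i' a) (q a) (d a) := by
  unfold Ans
  refine RE.and ?_ ?_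
  · exact RE.all_mem (p := fun a y => Frc (i a) (q a) y) (l := fun a => (d a).1)
      (frc_re (by fun_prop) (by fun_prop) (by fun_prop)) (by fun_prop)
  · exact RE.all_mem (p := fun a y => Frc (i' a) (q a) y) (l := fun a => (d a).2)
      (frc_re (by fun_prop) (by fun_prop) (by fun_prop)) (by fun_prop)

theorem ext_re {α : Type} [Primcodable α] {j i i' n : α → ℕ} {q : α → Info} (hj : Computable j)
    (hi : Computable i) (hi' : Computable i') (hn : Computable n) (hq : Computable q) :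
    REPred fun a => Ext (j a) (i a) (i' a) (n a) (q a) := by
  unfold Ext
  refine RE.ex (p := fun a (q' : Info) => Cons ((q a).1 ++ q'.1, (q a).2 ++ q'.2) ∧ ∃ d : Info,
    W (j a) (encode (n a, d)) ∧ Ans (i a) (i' a) ((q a).1 ++ q'.1, (q a).2 ++ q'.2) d) ?_
  refine RE.and (cons_re (by fun_prop)) ?_
  refine RE.ex (p := fun (x : α × Info) (d : Info) => W (j x.1) (encode (n x.1, d)) ∧
    Ans (i x.1) (i' x.1) ((q x.1).1 ++ x.2.1, (q x.1).2 ++ x.2.2) d) ?_
  refine RE.and ?_ (ans_re (by fun_prop) (by fun_prop) (by fun_prop) (by fun_prop))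
  exact RE.comp W_re (f := fun x : (α × Info) × Info => (j x.1.1, encode (n x.1.1, x.2)))
    (by fun_prop)

/-- the negation of an enumerable predicate is enumerable in `H` if `H` computes the halting
problem -/
theorem not_re {H : Set ℕ} (hK : Red (jump ∅) H) {α : Type} [Primcodable α] {P : α → Prop}
    (hP : REPred P) : REIn H fun a => ¬ P a := by
  obtain ⟨f, hf, h⟩ := REIn_iff_jump.1 (REIn.of_re (A := ∅) hP)
  have h1 : REIn (jump ∅) fun a => ¬ P a :=
    (REIn.not_mem hf).of_eq fun a => not_congr (h a).symm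
  exact reMono h1 hK

/-- the dense sets -/
def VA (Y : ℕ → Set ℕ) (e i i' : ℕ) (q : Info) : Prop :=
  ∃ y : ℕ, (Frc i q y ∧ y ∉ Y e) ∨ (Frc i' q y ∧ y ∈ Y e)

def VB (i i' j j' : ℕ) (q : Info) : Prop :=
  (∃ n ∈ q.1, ¬ Ext j i i' n q) ∨ ∃ n ∈ q.2, ¬ Ext j' i i' n q

def VC (Y : ℕ → Set ℕ) (e j j' : ℕ) : Prop :=
  ∃ n : ℕ, ∃ d : Info × Info, (W j (encode (n, d.1)) ∧ W j' (encode (n, d.2))) ∧
    Ok (Y e) d.1 ∧ Ok (Y e) d.2

def VV (Y : ℕ → Set ℕ) (s : ℕ) (q : Info) : Prop :=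
  VA Y s.unpair.1 s.unpair.2.unpair.1.unpair.1 s.unpair.2.unpair.1.unpair.2 q ∨
  VB s.unpair.2.unpair.1.unpair.1 s.unpair.2.unpair.1.unpair.2
    s.unpair.2.unpair.2.unpair.1 s.unpair.2.unpair.2.unpair.2 q ∨
  VC Y s.unpair.1 s.unpair.2.unpair.2.unpair.1 s.unpair.2.unpair.2.unpair.2

section
variable {H : Set ℕ} (hK : Red (jump ∅) H) {Y : ℕ → Set ℕ}
  (h1 : REIn H fun x : ℕ × ℕ => x.2 ∈ Y x.1) (h2 : REIn H fun x : ℕ × ℕ => x.2 ∉ Y x.1)

include h1 h2 in
theorem VA_re {α : Type} [Primcodable α] {e i i' : α → ℕ} {q : α → Info} (he : Computable e)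
    (hi : Computable i) (hi' : Computable i') (hq : Computable q) :
    REIn H fun a => VA Y (e a) (i a) (i' a) (q a) := by
  unfold VA
  refine REIn.ex (S := fun a y => (Frc (i a) (q a) y ∧ y ∉ Y (e a)) ∨
    (Frc (i' a) (q a) y ∧ y ∈ Y (e a))) ?_
  refine REIn.or (REIn.and (REIn.of_re (frc_re (by fun_prop) (by fun_prop) (by fun_prop))) ?_)
    (REIn.and (REIn.of_re (frc_re (by fun_prop) (by fun_prop) (by fun_prop))) ?_)
  · exact h2.comp (f := fun x : α × ℕ => (e x.1, x.2)) (by fun_prop)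
  · exact h1.comp (f := fun x : α × ℕ => (e x.1, x.2)) (by fun_prop)

include hK in
theorem VB_re {α : Type} [Primcodable α] {i i' j j' : α → ℕ} {q : α → Info}
    (hi : Computable i) (hi' : Computable i') (hj : Computable j) (hj' : Computable j')
    (hq : Computable q) :
    REIn H fun a => VB (i a) (i' a) (j a) (j' a) (q a) := by
  unfold VB
  refine REIn.or ?_ ?_
  · refine ex_mem_re (l := fun a => (q a).1) (by fun_prop)
      (S := fun a n => ¬ Ext (j a) (i a) (i' a) n (q a)) ?_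
    exact not_re hK (ext_re (by fun_prop) (by fun_prop) (by fun_prop) (by fun_prop)
      (by fun_prop))
  · refine ex_mem_re (l := fun a => (q a).2) (by fun_prop)
      (S := fun a n => ¬ Ext (j' a) (i a) (i' a) n (q a)) ?_
    exact not_re hK (ext_re (by fun_prop) (by fun_prop) (by fun_prop) (by fun_prop)
      (by fun_prop))

include h1 h2 in
theorem okY_re {α : Type} [Primcodable α] {e : α → ℕ} {d : α → Info} (he : Computable e)
    (hd : Computable d) : REIn H fun a => Ok (Y (e a)) (d a) := by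
  unfold Ok
  refine REIn.and ?_ ?_
  · exact REIn.all_mem (S := fun (a : α) x => x ∈ Y (e a)) (l := fun a => (d a).1)
      (h1.comp (f := fun x : α × ℕ => (e x.1, x.2)) (by fun_prop)) (by fun_prop)
  · exact REIn.all_mem (S := fun (a : α) x => x ∉ Y (e a)) (l := fun a => (d a).2)
      (h2.comp (f := fun x : α × ℕ => (e x.1, x.2)) (by fun_prop)) (by fun_prop)

include h1 h2 in
theorem VC_re {α : Type} [Primcodable α] {e j j' : α → ℕ} (he : Computable e)
    (hj : Computable j) (hj' : Computable j') :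
    REIn H fun a => VC Y (e a) (j a) (j' a) := by
  unfold VC
  refine REIn.ex (S := fun a (n : ℕ) => ∃ d : Info × Info, (W (j a) (encode (n, d.1)) ∧
    W (j' a) (encode (n, d.2))) ∧ Ok (Y (e a)) d.1 ∧ Ok (Y (e a)) d.2) ?_
  refine REIn.ex (S := fun (a : α × ℕ) (d : Info × Info) => (W (j a.1) (encode (a.2, d.1)) ∧
    W (j' a.1) (encode (a.2, d.2))) ∧ Ok (Y (e a.1)) d.1 ∧ Ok (Y (e a.1)) d.2) ?_
  refine REIn.and (REIn.of_re (RE.and ?_ ?_)) (REIn.and
    (okY_re h1 h2 (e := fun x : (α × ℕ) × (Info × Info) => e x.1.1) (by fun_prop) (by fun_prop))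
    (okY_re h1 h2 (e := fun x : (α × ℕ) × (Info × Info) => e x.1.1) (by fun_prop) (by fun_prop)))
  · exact RE.comp W_re (f := fun x : (α × ℕ) × (Info × Info) =>
      (j x.1.1, encode (x.1.2, x.2.1))) (by fun_prop)
  · exact RE.comp W_re (f := fun x : (α × ℕ) × (Info × Info) =>
      (j' x.1.1, encode (x.1.2, x.2.2))) (by fun_prop)

include hK h1 h2 in
theorem VV_re : REIn H fun x : ℕ × Info => VV Y x.1 x.2 := by
  unfold VV
  refine REIn.or (VA_re h1 h2 (e := fun x : ℕ × Info => x.1.unpair.1)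
    (i := fun x : ℕ × Info => x.1.unpair.2.unpair.1.unpair.1)
    (i' := fun x : ℕ × Info => x.1.unpair.2.unpair.1.unpair.2) (by fun_prop) (by fun_prop)
    (by fun_prop) (by fun_prop)) (REIn.or (VB_re hK (by fun_prop) (by fun_prop) (by fun_prop)
    (by fun_prop) (by fun_prop)) (VC_re h1 h2 (e := fun x : ℕ × Info => x.1.unpair.1)
    (j := fun x : ℕ × Info => x.1.unpair.2.unpair.2.unpair.1)
    (j' := fun x : ℕ × Info => x.1.unpair.2.unpair.2.unpair.2) (by fun_prop) (by fun_prop)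
    (by fun_prop)))

/-- consistency passes to smaller information -/
theorem Cons.anti {c q : Info} (hq : Cons q) (h : Sub c q) : Cons c :=
  fun x hx hx' => hq x (h.1 x hx) (h.2 x hx')

theorem fresh_cons1 {p : Info} {n : ℕ} (hp : Cons p) (hn : n ∉ p.2) : Cons (n :: p.1, p.2) := by
  intro x hx hx'
  rcases List.mem_cons.1 hx with rfl | hx
  · exact hn hx'
  · exact hp x hx hx'

theorem fresh_cons0 {p : Info} {n : ℕ} (hp : Cons p) (hn : n ∉ p.1) : Cons (p.1, n :: p.2) := by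
  intro x hx hx'
  rcases List.mem_cons.1 hx' with rfl | hx'
  · exact hn hx
  · exact hp x hx hx'

theorem sub_app {p q : Info} (h : Sub p q) : Sub (app p q) q := by
  refine ⟨fun x hx => ?_, fun x hx => ?_⟩
  · rcases List.mem_append.1 hx with hx | hx
    · exact h.1 x hx
    · exact hx
  · rcases List.mem_append.1 hx with hx | hx
    · exact h.2 x hx
    · exact hx

theorem dense (Y : ℕ → Set ℕ) (e i i' j j' : ℕ) (p : Info) (hp : Cons p) :
    ∃ q, (VA Y e i i' q ∨ VB i i' j j' q ∨ VC Y e j j') ∧ Cons (app p q) := by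
  by_cases hC : VC Y e j j'
  · refine ⟨([], []), Or.inr (Or.inr hC), ?_⟩
    refine Cons.anti hp ⟨fun x hx => ?_, fun x hx => ?_⟩
    · rcases List.mem_append.1 hx with hx | hx
      · exact hx
      · cases hx
    · rcases List.mem_append.1 hx with hx | hx
      · exact hx
      · cases hx
  -- a fresh number
  obtain ⟨n, hn⟩ : ∃ n, n ∉ p.1 ++ p.2 := by
    refine ⟨(p.1 ++ p.2).sum + 1, fun h => ?_⟩
    have := List.single_le_sum (fun x _ => Nat.zero_le x) _ h
    omega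
  have hn1 : n ∉ p.1 := fun h => hn (List.mem_append_left _ h)
  have hn2 : n ∉ p.2 := fun h => hn (List.mem_append_right _ h)
  have c1 : Cons (app p (n :: p.1, p.2)) := Cons.anti (fresh_cons1 hp hn2)
    (sub_app ⟨fun x hx => List.mem_cons_of_mem _ hx, fun x hx => hx⟩)
  have c0 : Cons (app p (p.1, n :: p.2)) := Cons.anti (fresh_cons0 hp hn1)
    (sub_app ⟨fun x hx => hx, fun x hx => List.mem_cons_of_mem _ hx⟩)
  by_cases hE1 : Ext j i i' n (n :: p.1, p.2)
  swap
  · exact ⟨(n :: p.1, p.2), Or.inr (Or.inl (Or.inl ⟨n, List.mem_cons_self, hE1⟩)), c1⟩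
  by_cases hE0 : Ext j' i i' n (p.1, n :: p.2)
  swap
  · exact ⟨(p.1, n :: p.2), Or.inr (Or.inl (Or.inr ⟨n, List.mem_cons_self, hE0⟩)), c0⟩
  obtain ⟨q1, hc1, d1, hd1, ha1⟩ := hE1
  obtain ⟨q0, hc0, d0, hd0, ha0⟩ := hE0
  by_cases hA1 : VA Y e i i' ((n :: p.1) ++ q1.1, p.2 ++ q1.2)
  · refine ⟨((n :: p.1) ++ q1.1, p.2 ++ q1.2), Or.inl hA1, Cons.anti hc1 (sub_app ⟨?_, ?_⟩)⟩
    · exact fun x hx => List.mem_append_left _ (List.mem_cons_of_mem _ hx)
    · exact fun x hx => List.mem_append_left _ hx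
  by_cases hA0 : VA Y e i i' (p.1 ++ q0.1, (n :: p.2) ++ q0.2)
  · refine ⟨(p.1 ++ q0.1, (n :: p.2) ++ q0.2), Or.inl hA0, Cons.anti hc0 (sub_app ⟨?_, ?_⟩)⟩
    · exact fun x hx => List.mem_append_left _ hx
    · exact fun x hx => List.mem_append_left _ (List.mem_cons_of_mem _ hx)
  exfalso
  have key : ∀ q d, ¬ VA Y e i i' q → Ans i i' q d → Ok (Y e) d := by
    intro q d hq hd
    refine ⟨fun x hx => ?_, fun x hx hx' => ?_⟩
    · by_contra h
      exact hq ⟨x, Or.inl ⟨hd.1 x hx, h⟩⟩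
    · exact hq ⟨x, Or.inr ⟨hd.2 x hx, hx'⟩⟩
  exact hC ⟨n, (d1, d0), ⟨hd1, hd0⟩, key _ _ hA1 ha1, key _ _ hA0 ha0⟩

theorem VV_dense (Y : ℕ → Set ℕ) (s : ℕ) (p : Info) (hp : Cons p) :
    ∃ q, VV Y s q ∧ Cons (app p q) :=
  dense Y _ _ _ _ _ p hp

theorem Frc.mono {i : ℕ} {q q' : Info} {y : ℕ} (h : Frc i q y) (hq : Sub q q') : Frc i q' y := by
  obtain ⟨c, hc, hW⟩ := h
  exact ⟨c, ⟨fun x hx => hq.1 x (hc.1 x hx), fun x hx => hq.2 x (hc.2 x hx)⟩, hW⟩

theorem collect {X : Set ℕ} {i : ℕ} (l : List ℕ)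
    (h : ∀ y ∈ l, ∃ c : Info, W i (encode (y, c)) ∧ Ok X c) :
    ∃ q : Info, Ok X q ∧ ∀ y ∈ l, Frc i q y := by
  induction l with
  | nil => exact ⟨([], []), ⟨by simp, by simp⟩, by simp⟩
  | cons y l ih =>
    obtain ⟨q, hq, hq'⟩ := ih fun z hz => h z (List.mem_cons_of_mem _ hz)
    obtain ⟨c, hc, hc'⟩ := h y List.mem_cons_self
    refine ⟨app c q, okApp hc' hq, fun z hz => ?_⟩
    rcases List.mem_cons.1 hz with rfl | hz
    · exact ⟨c, ⟨fun x hx => List.mem_append_left _ hx, fun x hx => List.mem_append_left _ hx⟩, hc⟩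
    · exact (hq' z hz).mono ⟨fun x hx => List.mem_append_right _ hx,
        fun x hx => List.mem_append_right _ hx⟩

theorem index {β : Type} [Primcodable β] {R : β → Prop} (hR : REPred R) :
    ∃ i : ℕ, ∀ b, W i (encode b) ↔ R b := by
  obtain ⟨g, -, hg⟩ := smn (α := ℕ) (β := β) (P := fun _ b => R b)
    (RE.comp hR (f := fun x : ℕ × β => x.2) (by fun_prop))
  exact ⟨g 0, fun b => hg 0 b⟩

include hK h1 h2 in
/-- If `H` computes the halting problem and the sequence `Y` is uniformly computable in `H`, then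
some set computable in `H` is not Turing equivalent to any of the sets `Y e`. -/
theorem diag : ∃ X, Red X H ∧ ∀ e, ¬ (Red (Y e) X ∧ Red X (Y e)) := by
  obtain ⟨X, hX, hV⟩ := baire (VV_re hK h1 h2) (VV_dense Y)
  refine ⟨X, hX, ?_⟩
  rintro e ⟨hYX, hXY⟩
  rw [Red_iff] at hYX hXY
  obtain ⟨⟨Ri, hRi, hi⟩, ⟨Ri', hRi', hi'⟩⟩ := hYX
  obtain ⟨⟨Rj, hRj, hj⟩, ⟨Rj', hRj', hj'⟩⟩ := hXY
  obtain ⟨i, ei⟩ := index hRi
  obtain ⟨i', ei'⟩ := index hRi'
  obtain ⟨j, ej⟩ := index hRj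
  obtain ⟨j', ej'⟩ := index hRj'
  obtain ⟨q, hq, hVq⟩ := hV (Nat.pair e (Nat.pair (Nat.pair i i') (Nat.pair j j')))
  unfold VV at hVq
  simp only [Nat.unpair_pair] at hVq
  have hok : ∀ {c : Info}, Sub c q → Ok X c := fun hc =>
    ⟨fun x hx => hq.1 x (hc.1 x hx), fun x hx => hq.2 x (hc.2 x hx)⟩
  have hfi : ∀ y ∈ Y e, ∃ c : Info, W i (encode (y, c)) ∧ Ok X c := by
    intro y hy
    obtain ⟨c, hc1, hc2⟩ := (hi y).1 hy
    exact ⟨c, (ei (y, c)).2 hc1, hc2⟩
  have hfi' : ∀ y, y ∉ Y e → ∃ c : Info, W i' (encode (y, c)) ∧ Ok X c := by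
    intro y hy
    obtain ⟨c, hc1, hc2⟩ := (hi' y).1 hy
    exact ⟨c, (ei' (y, c)).2 hc1, hc2⟩
  have hext : ∀ (k n : ℕ) (d : Info), W k (encode (n, d)) → Ok (Y e) d → Ext k i i' n q := by
    intro k n d hW hd
    obtain ⟨q1, hq1, hq1'⟩ := collect (i := i) d.1 fun y hy => hfi y (hd.1 y hy)
    obtain ⟨q2, hq2, hq2'⟩ := collect (i := i') d.2 fun y hy => hfi' y (hd.2 y hy)
    refine ⟨app q1 q2, okCons (okApp hq (okApp hq1 hq2)), d, hW, ?_, ?_⟩
    · intro y hy
      refine (hq1' y hy).mono ⟨fun x hx => ?_, fun x hx => ?_⟩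
      · exact List.mem_append_right _ (List.mem_append_left _ hx)
      · exact List.mem_append_right _ (List.mem_append_left _ hx)
    · intro y hy
      refine (hq2' y hy).mono ⟨fun x hx => ?_, fun x hx => ?_⟩
      · exact List.mem_append_right _ (List.mem_append_right _ hx)
      · exact List.mem_append_right _ (List.mem_append_right _ hx)
  rcases hVq with ⟨y, ⟨⟨c, hc, hW⟩, hy⟩ | ⟨⟨c, hc, hW⟩, hy⟩⟩ | hB | ⟨n, d, ⟨hW, hW'⟩, hd, hd'⟩
  · exact hy ((hi y).2 ⟨c, (ei (y, c)).1 hW, hok hc⟩)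
  · exact (hi' y).2 ⟨c, (ei' (y, c)).1 hW, hok hc⟩ hy
  · rcases hB with ⟨n, hn, hE⟩ | ⟨n, hn, hE⟩
    · obtain ⟨d, hd1, hd2⟩ := (hj n).1 (hq.1 n hn)
      exact hE (hext j n d ((ej (n, d)).2 hd1) hd2)
    · obtain ⟨d, hd1, hd2⟩ := (hj' n).1 (hq.2 n hn)
      exact hE (hext j' n d ((ej' (n, d)).2 hd1) hd2)
  · have h3 : n ∈ X := (hj n).2 ⟨d.1, (ej (n, d.1)).1 hW, hd⟩
    have h4 : n ∉ X := (hj' n).2 ⟨d.2, (ej' (n, d.2)).1 hW', hd'⟩
    exact h4 h3

end

end Pool.Agent.W882
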